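import Pool.Agent.Lib.MP_65f012_co.Triple

/-!
# Linked systems of symmetric designs: a common prime divisor of `v` and two block sizes

`LinkedSystem μ v` (in `Pool/Agent/Lib/MP_65f012_co/Defs.lean`) is the notion of the problem: `μ > 2`
sets of size `v`, symmetric designs with parameters `(v, k i j, lam i j)` between them, and the
linking condition.
-/

set_option autoImplicit false

namespace Pool.Agent.Results.MP_65f012_co.CommonPrime

open Pool.Agent.MP_65f012_co

/-- Let `L` be a system of `μ > 2` linked symmetric designs on sets of size `v`. For any three of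
the sets some prime `ℓ ∣ v` with `4 ℓ² ≤ v` divides at least two of the three block sizes.
In particular: `v` is not a prime; if `v = p q` with primes `p ≤ q`, then `4 p < q`; and if
`k i j` and `k j h` are both coprime to `v`, then `i = h` (the pairs of sets with block size coprime
to `v` are pairwise disjoint). -/
theorem result {μ v : ℕ} (L : LinkedSystem μ v) :
    (∀ i j h : Fin μ, i ≠ j → j ≠ h → h ≠ i →
      ∃ ℓ : ℕ, ℓ.Prime ∧ ℓ ∣ v ∧ 4 * ℓ ^ 2 ≤ v ∧
        ((ℓ ∣ L.k i j ∧ ℓ ∣ L.k j h) ∨ (ℓ ∣ L.k j h ∧ ℓ ∣ L.k h i) ∨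
          (ℓ ∣ L.k h i ∧ ℓ ∣ L.k i j))) ∧
    ¬ v.Prime ∧
    (∀ p q : ℕ, p.Prime → q.Prime → p ≤ q → v = p * q → 4 * p < q) ∧
    (∀ i j h : Fin μ, i ≠ j → j ≠ h → Nat.Coprime (L.k i j) v → Nat.Coprime (L.k j h) v →
      i = h) := by
  have hμ := L.two_lt
  refine ⟨fun i j h hij hjh hhi => two_of_three L hij hjh hhi, ?_, ?_, ?_⟩
  · intro hp
    obtain ⟨ℓ, hℓ, hv, hb, -⟩ := two_of_three L (i := ⟨0, by omega⟩) (j := ⟨1, by omega⟩)
      (h := ⟨2, by omega⟩) (by simp) (by simp) (by simp)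
    have e := (Nat.prime_dvd_prime_iff_eq hℓ hp).1 hv
    subst e
    have := hℓ.two_le
    nlinarith
  · intro p q hp hq hpq hv
    obtain ⟨ℓ, hℓ, hlv, hb, -⟩ := two_of_three L (i := ⟨0, by omega⟩) (j := ⟨1, by omega⟩)
      (h := ⟨2, by omega⟩) (by simp) (by simp) (by simp)
    have hp2 := hp.two_le
    have h4 : 4 * p ≤ q := by
      rw [hv] at hlv hb
      rcases (Nat.Prime.dvd_mul hℓ).1 hlv with h1 | h1
      · have e := (Nat.prime_dvd_prime_iff_eq hℓ hp).1 h1
        subst e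
        nlinarith
      · have e := (Nat.prime_dvd_prime_iff_eq hℓ hq).1 h1
        subst e
        nlinarith
    rcases h4.lt_or_eq with h5 | h5
    · exact h5
    · exfalso
      rw [← h5] at hq
      exact Nat.not_prime_mul (by norm_num) hp.one_lt.ne' hq
  · intro i j h hij hjh c1 c2
    by_contra hih
    obtain ⟨ℓ, hℓ, hlv, -, hd⟩ := two_of_three L hij hjh (fun e => hih e.symm)
    have n1 : ¬ ℓ ∣ L.k i j := fun hd => hℓ.one_lt.ne' (Nat.dvd_one.1 (c1 ▸ Nat.dvd_gcd hd hlv))
    have n2 : ¬ ℓ ∣ L.k j h := fun hd => hℓ.one_lt.ne' (Nat.dvd_one.1 (c2 ▸ Nat.dvd_gcd hd hlv))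
    rcases hd with hd | hd | hd
    · exact n1 hd.1
    · exact n2 hd.1
    · exact n1 hd.2

end Pool.Agent.Results.MP_65f012_co.CommonPrime
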