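import Pool.Agent.Lib.MP_65f012_coD.Main

/-!
# Linked systems of symmetric designs with Davis-Jedwab-Chen parameters

`LinkedSystem μ v` (in `Pool/Agent/Lib/MP_65f012_co/Defs.lean`) is the notion of the problem: `μ > 2`
sets of size `v`, symmetric designs with parameters `(v, k i j, lam i j)` between them, and the
linking condition.

For every `t ≥ 2` the parameters `v = 4^(t+1) (4^t - 1) / 3`, `k = 4^t (2 * 4^t + 1) / 6`,
`l = 4^t (4^t + 2) / 12` are those of all the designs of a linked system of three sets, and any of the
three designs may be replaced by its complement. The first case is `(320, 88, 24)`.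
-/

set_option autoImplicit false

namespace Pool.Agent.Results.MP_65f012_co.DavisJedwabChenFamily

open Pool.Agent.MP_65f012_co

/-- Linked systems of three sets whose designs have the parameters `(v, k, l)` or the complementary
parameters, as prescribed by `c`; here `v` is not a power of `2`, and the parameters are not those of a
Menon design (which has `v = 4 (k - l)`). -/
theorem result (t v k l : ℕ) (ht : 2 ≤ t) (hv : 3 * v = 4 ^ (t + 1) * (4 ^ t - 1))
    (hk : 6 * k = 4 ^ t * (2 * 4 ^ t + 1)) (hl : 12 * l = 4 ^ t * (4 ^ t + 2)) :
    (∀ e, v ≠ 2 ^ e) ∧ 4 * (k - l) < v ∧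
    ∀ c : Fin 3 → Fin 3 → Bool, (∀ i j, c i j = c j i) →
      ∃ L : LinkedSystem 3 v, ∀ i j, i ≠ j →
        L.k i j = (if c i j = true then v - k else k) ∧
        L.lam i j = (if c i j = true then v + l - 2 * k else l) :=
  Pool.Agent.Lib.MP_65f012_coD.main t v k l ht hv hk hl

end Pool.Agent.Results.MP_65f012_co.DavisJedwabChenFamily
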