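import Pool.Agent.Lib.MP_65f012_co.Triple

/-!
# Linked systems of symmetric designs: equal block sizes

`LinkedSystem μ v` (in `Pool/Agent/Lib/MP_65f012_co/Defs.lean`) is the notion of the problem: `μ > 2`
sets of size `v`, symmetric designs with parameters `(v, k i j, lam i j)` between them, and the
linking condition.
-/

set_option autoImplicit false

namespace Pool.Agent.Results.MP_65f012_co.EqualSizes

open Pool.Agent.MP_65f012_co

/-- Let `L` be a system of `μ > 2` linked symmetric designs on sets of size `v`. If two of the three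
block sizes between three of the sets are equal or add up to `v`, then some prime `ℓ ∣ v` with
`4 ℓ² ≤ v` divides all three block sizes. -/
theorem result {μ v : ℕ} (L : LinkedSystem μ v) (i j h : Fin μ) (hij : i ≠ j) (hjh : j ≠ h)
    (hhi : h ≠ i) (hK : L.k i j = L.k h i ∨ L.k i j + L.k h i = v) :
    ∃ ℓ : ℕ, ℓ.Prime ∧ ℓ ∣ v ∧ 4 * ℓ ^ 2 ≤ v ∧ ℓ ∣ L.k i j ∧ ℓ ∣ L.k j h ∧ ℓ ∣ L.k h i := by
  obtain ⟨d1, d2, d3, H⟩ := num L hij hjh hhi
  have hK' : L.k h i = L.k i j ∨ L.k h i + L.k i j = v := by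
    rcases hK with e | e
    · left; exact e.symm
    · right; rw [add_comm]; exact e
  obtain ⟨ℓ, hℓ, hv, e1, e2, e3⟩ := H.eq_case hK'
  exact ⟨ℓ, hℓ, hv, H.bound hℓ hv e1, e3, e1, e2⟩

end Pool.Agent.Results.MP_65f012_co.EqualSizes
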