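import Pool.Agent.Lib.MP_65f012_coM.Main

/-!
# Linked systems of symmetric designs with McFarland parameters

`LinkedSystem μ v` (in `Pool/Agent/Lib/MP_65f012_co/Defs.lean`) is the notion of the problem: `μ > 2`
sets of size `v`, symmetric designs with parameters `(v, k i j, lam i j)` between them, and the
linking condition.

For every `d ≥ 2` the parameters `v = 4^(d+1) (4^(d+1) + 2) / 3`, `k = 4^d (4^(d+1) - 1) / 3`,
`l = 4^d (4^d - 1) / 3` are those of all the designs of a linked system of three sets, and any of the
three designs may be replaced by its complement. The first case is `(1408, 336, 80)`.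
-/

set_option autoImplicit false

namespace Pool.Agent.Results.MP_65f012_co.McFarlandFamily

open Pool.Agent.MP_65f012_co

/-- Linked systems of three sets whose designs have the parameters `(v, k, l)` or the complementary
parameters, as prescribed by `c`; here `v` is not a power of `2`, and the parameters are not those of a
Menon design (which has `v = 4 (k - l)`). -/
theorem result (d v k l : ℕ) (hd : 2 ≤ d) (hv : 3 * v = 4 ^ (d + 1) * (4 ^ (d + 1) + 2))
    (hk : 3 * k = 4 ^ d * (4 ^ (d + 1) - 1)) (hl : 3 * l = 4 ^ d * (4 ^ d - 1)) :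
    (∀ e, v ≠ 2 ^ e) ∧ 4 * (k - l) < v ∧
    ∀ c : Fin 3 → Fin 3 → Bool, (∀ i j, c i j = c j i) →
      ∃ L : LinkedSystem 3 v, ∀ i j, i ≠ j →
        L.k i j = (if c i j = true then v - k else k) ∧
        L.lam i j = (if c i j = true then v + l - 2 * k else l) :=
  ⟨Pool.Agent.Lib.MP_65f012_coM.not_pow d v hd hv,
    Pool.Agent.Lib.MP_65f012_coM.not_menon d v k l hd hv hk hl,
    Pool.Agent.Lib.MP_65f012_coM.family d v k l hd hv hk hl⟩

end Pool.Agent.Results.MP_65f012_co.McFarlandFamily
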